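import Pool.Agent.V5helper28.KP.Stm

/-!
Job HULL of project KP: measurable hulls of the same Hausdorff dimension.
-/

set_option autoImplicit false

open MeasureTheory
open scoped NNReal ENNReal

namespace Pool.Agent.V5helper47.KP

open Pool.Agent.V5helper28.KP

theorem t_HULL : S_HULL := by
  intro n K
  rcases eq_or_ne (dimH K) ⊤ with htop | htop
  · refine ⟨Set.univ, Set.subset_univ K, MeasurableSet.univ, ?_⟩
    rw [htop]
    exact top_le_iff.1 (htop ▸ dimH_mono (Set.subset_univ K))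
  · obtain ⟨d, hd⟩ : ∃ d : ℝ≥0, (d : ℝ≥0∞) = dimH K :=
      ⟨(dimH K).toNNReal, ENNReal.coe_toNNReal htop⟩
    have hpos : ∀ m : ℕ, (0 : ℝ≥0) < 1 / ((m : ℝ≥0) + 1) := fun m => by positivity
    have hzero : ∀ m : ℕ, μH[((d + 1 / ((m : ℝ≥0) + 1) : ℝ≥0) : ℝ)] K = 0 := fun m => by
      refine hausdorffMeasure_of_dimH_lt ?_
      rw [← hd]
      exact_mod_cast lt_add_of_pos_right d (hpos m)
    refine ⟨⋂ m : ℕ, toMeasurable (μH[((d + 1 / ((m : ℝ≥0) + 1) : ℝ≥0) : ℝ)]) K,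
      Set.subset_iInter fun m => subset_toMeasurable _ _,
      MeasurableSet.iInter fun m => measurableSet_toMeasurable _ _, ?_⟩
    refine le_antisymm ?_ (dimH_mono (Set.subset_iInter fun m => subset_toMeasurable _ _))
    have hle : ∀ m : ℕ, dimH (⋂ m : ℕ, toMeasurable
        (μH[((d + 1 / ((m : ℝ≥0) + 1) : ℝ≥0) : ℝ)]) K) ≤
          ((d + 1 / ((m : ℝ≥0) + 1) : ℝ≥0) : ℝ≥0∞) := fun m => by
      refine dimH_le_of_hausdorffMeasure_ne_top ?_
      have h1 : μH[((d + 1 / ((m : ℝ≥0) + 1) : ℝ≥0) : ℝ)] (⋂ m : ℕ, toMeasurable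
          (μH[((d + 1 / ((m : ℝ≥0) + 1) : ℝ≥0) : ℝ)]) K) ≤ 0 := by
        refine (measure_mono (Set.iInter_subset _ m)).trans ?_
        rw [measure_toMeasurable, hzero m]
      rw [le_antisymm h1 bot_le]
      exact ENNReal.zero_ne_top
    rw [← hd]
    refine ENNReal.le_of_forall_pos_le_add fun ε hε _ => ?_
    obtain ⟨m, hm⟩ := exists_nat_one_div_lt hε
    refine (hle m).trans ?_
    rw [← ENNReal.coe_add]
    exact ENNReal.coe_le_coe.2 (add_le_add_right hm.le d)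

end Pool.Agent.V5helper47.KP
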